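import Pool.Agent.Q42.AP.Prog
import Pool.Agent.Q25.IT1

/-!
# Furstenberg systems of aperiodic multiplicative functions with values `1` and `-1`: nearly independent times
-/

set_option autoImplicit false

namespace Pool.Agent.Results.MP_4a7640_nt.IndependentTimes

open MeasureTheory Filter Topology Finset
open Pool.Agent.Q42.AP
open Pool.Agent.TH112.BL (Bd)
open Pool.Agent.TH833.BL (lm avg S)
open Pool.Agent.Y956.CM (usq usq_le lm_usq)
open Pool.Agent.Y958.TC (ind)

/-- the numbers `-1`, `0`, `1` -/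
abbrev Val : Type := ({-1, 0, 1} : Set ℝ)

/-- the space of two-sided sequences -/
abbrev X : Type := ℤ → Val

/-- the `n`-th power of the shift -/
def shift (n : ℤ) (x : X) : X := fun k => x (k + n)

/-- the sequence of the values `f n`, `n ≥ 1`, extended by zero -/
noncomputable def seq (f : ℕ → Val) : X := fun n => if 1 ≤ n then f n.toNat else ⟨0, by simp⟩

/-- `μ` is a Furstenberg system of `f`: a weak-star limit, along some sequence `N j → ∞`, of the
logarithmic averages of the point masses at the shifts of the sequence of values of `f` -/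
def IsFurstenbergSystem (f : ℕ → Val) (μ : Measure X) : Prop :=
  IsProbabilityMeasure μ ∧ ∃ N : ℕ → ℕ, Tendsto N atTop atTop ∧ ∀ φ : X → ℝ, Continuous φ →
    Tendsto (fun j => (1 / Real.log (N j : ℝ)) * ∑ n ∈ Icc 1 (N j), (1 / (n : ℝ)) * φ (shift (n : ℤ) (seq f)))
      atTop (𝓝 (∫ x, φ x ∂μ))

/-- multiplicative functions with values `1` and `-1` -/
def IsMult (f : ℕ → Val) : Prop := (∀ n : ℕ, 1 ≤ n → (f n : ℝ) ≠ 0) ∧
  ∀ m n : ℕ, 1 ≤ m → 1 ≤ n → Nat.Coprime m n → (f (m * n) : ℝ) = f m * f n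

/-- the distance to every Dirichlet character is infinite -/
def Aperiodic (f : ℕ → Val) : Prop := ∀ Q : ℕ, 0 < Q → ∀ χ : DirichletCharacter ℂ Q,
  ¬ Summable (fun p : ℕ => if p.Prime then
    (1 - (((f p : ℝ) : ℂ) * (starRingEnd ℂ) (χ (p : ZMod Q))).re) / (p : ℝ) else 0)

/-- the coordinates at the times `D` are independent and uniform up to the factor `1 ± δ`: each of the `2^|D|` sign
patterns `w` on `D` has measure between `(1 - δ) 2^{-|D|}` and `(1 + δ) 2^{-|D|}` -/
def NearlyIndependent (μ : Measure X) (D : Finset ℤ) (δ : ℝ) : Prop :=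
  ∀ w : ℤ → ℝ, (∀ h, w h = 1 ∨ w h = -1) →
    |μ.real {x : X | ∀ h ∈ D, (x h : ℝ) = w h} - 1 / 2 ^ D.card| ≤ δ / 2 ^ D.card

lemma val3 (z : Val) : (z : ℝ) = -1 ∨ (z : ℝ) = 0 ∨ (z : ℝ) = 1 := by
  have h := z.2
  simpa only [Set.mem_insert_iff, Set.mem_singleton_iff] using h

lemma val_le (z : Val) : |(z : ℝ)| ≤ 1 := by
  rcases val3 z with h | h | h <;> rw [h] <;> norm_num

lemma cont_coord (h : ℤ) : Continuous (fun x : X => (x h : ℝ)) := by fun_prop

/-- the coordinates are pairwise uncorrelated -/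
lemma unc (f : ℕ → Val) (hf : IsMult f) (ha : Aperiodic f) (μ : Measure X) (hμ : IsFurstenbergSystem f μ) :
    Pool.Agent.Q25.IT.Unc μ (fun h (x : X) => (x h : ℝ)) := by
  classical
  have hsg : Sg (fun n => ⌊(f n : ℝ)⌋) := sg_floor (fun n => val3 (f n)) hf.1 hf.2
  have hfl : ∀ n, ((⌊(f n : ℝ)⌋ : ℤ) : ℝ) = f n := fun n => floor_val (val3 (f n))
  have hap : Pool.Agent.Y956.CM.AperR (fun n => ((⌊(f n : ℝ)⌋ : ℤ) : ℝ)) := by
    intro Q hQ χ hs
    simp only [hfl] at hs
    exact ha Q hQ χ hs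
  obtain ⟨hprob, N, hN, hlim⟩ := hμ
  have hint : ∀ φ : X → ℝ, Continuous φ → lm (usq N) (fun n => φ (shift (n : ℤ) (seq f))) = ∫ x, φ x ∂μ :=
    fun φ hφ => lm_usq (hlim φ hφ)
  have hcb : ∀ h : ℤ, ∀ x : X, |(x h : ℝ)| ≤ 1 := fun h x => val_le _
  -- two coordinates
  have hpair : ∀ h : ℤ, ∀ t : ℕ, 1 ≤ t → ∫ x : X, (x h : ℝ) * (x (h + t) : ℝ) ∂μ = 0 := by
    intro h t ht
    rw [← hint (fun x : X => (x h : ℝ) * (x (h + t) : ℝ)) ((cont_coord h).mul (cont_coord (h + t)))]
    -- the sequence at the coordinate zero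
    set F : ℤ → ℕ → ℝ := fun k n => ((shift (n : ℤ) (seq f)) k : ℝ) * ((shift (n : ℤ) (seq f)) (k + t) : ℝ) with hF
    have hFb : ∀ k, Bd (F k) := fun k => ⟨1, fun n => by
      rw [hF]
      simp only
      rw [abs_mul]
      exact mul_le_one₀ (hcb _ _) (abs_nonneg _) (hcb _ _)⟩
    have hFs : ∀ k : ℤ, ∀ m n : ℕ, F k (n + m) = F (k + m) n := by
      intro k m n
      rw [hF]
      simp only
      unfold shift
      have a1 : k + ((n + m : ℕ) : ℤ) = k + (m : ℤ) + (n : ℤ) := by push_cast; ring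
      have a2 : k + (t : ℤ) + ((n + m : ℕ) : ℤ) = k + (m : ℤ) + (t : ℤ) + (n : ℤ) := by push_cast; ring
      rw [a1, a2]
    have hlmF : ∀ k : ℤ, ∀ m : ℕ, lm (usq N) (F (k + m)) = lm (usq N) (F k) := by
      intro k m
      rw [← lm_shift (usq N) (usq_le hN) (hFb k) m]
      congr 1
      funext n
      exact (hFs k m n).symm
    have h0 : lm (usq N) (F 0) = 0 := by
      have h1 := pr_corr hsg hap (usq N) (usq_le hN) (fun _ => True) 1 le_rfl (fun _ => Iff.rfl) 1 t le_rfl ht
      rw [← h1]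
      have hb2 : Bd (fun n : ℕ => ind (fun _ => True) n * (pr (fun n => ⌊(f n : ℝ)⌋) 1 t n *
          pr (fun n => ⌊(f n : ℝ)⌋) 1 t (n + t))) := ⟨1, fun n => by
        rw [abs_mul, abs_mul]
        have h1 : |ind (fun _ => True) n| ≤ 1 := by unfold ind; split_ifs <;> norm_num
        exact mul_le_one₀ h1 (by positivity) (mul_le_one₀ (pr_le hsg _ _ _) (abs_nonneg _) (pr_le hsg _ _ _))⟩
      apply (Pool.Agent.Y956.CM.lmLM (usq N) (usq_le hN)).congr_large (hFb 0) hb2 1
      intro n hn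
      have hpr : ∀ n, pr (fun n => ⌊(f n : ℝ)⌋) 1 t n = (f n : ℝ) := by
        intro n
        unfold pr
        rw [prod_range_one, zero_mul, add_zero]
        exact hfl n
      rw [hF]
      simp only
      rw [hpr, hpr]
      unfold ind
      rw [if_pos trivial, one_mul]
      unfold shift seq
      have a1 : (0 : ℤ) + (n : ℤ) = ((n : ℕ) : ℤ) := by ring
      have a2 : (0 : ℤ) + (t : ℤ) + (n : ℤ) = ((n + t : ℕ) : ℤ) := by push_cast; ring
      rw [a1, a2, if_pos (by omega), if_pos (by omega), Int.toNat_natCast, Int.toNat_natCast]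
    have h2 : lm (usq N) (F h) = lm (usq N) (F 0) := by
      rcases le_total 0 h with hh | hh
      · have h3 := hlmF 0 h.toNat
        rw [Int.toNat_of_nonneg hh, zero_add] at h3
        exact h3
      · have h3 := hlmF h (-h).toNat
        rw [Int.toNat_of_nonneg (by omega)] at h3
        have a1 : h + -h = 0 := by ring
        rw [a1] at h3
        exact h3.symm
    rw [h0] at h2
    exact h2
  have hsqi : ∀ h : ℤ, ∫ x : X, (1 - (x h : ℝ) ^ 2) ∂μ = 0 := by
    intro h
    rw [← hint (fun x : X => 1 - (x h : ℝ) ^ 2) (continuous_const.sub ((cont_coord h).pow 2))]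
    have hb : Bd (fun n : ℕ => 1 - ((shift (n : ℤ) (seq f)) h : ℝ) ^ 2) := ⟨1, fun n => by
      show |1 - ((shift (n : ℤ) (seq f)) h : ℝ) ^ 2| ≤ 1
      rcases val3 ((shift (n : ℤ) (seq f)) h) with e | e | e <;> rw [e] <;> norm_num⟩
    have hz : Bd (fun _ : ℕ => (0 : ℝ)) := ⟨0, fun n => by simp⟩
    have h1 := hint (fun _ : X => (0 : ℝ)) continuous_const
    rw [integral_zero] at h1
    refine Eq.trans ?_ h1
    apply (Pool.Agent.Y956.CM.lmLM (usq N) (usq_le hN)).congr_large hb hz (1 + (-h).toNat)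
    intro n hn
    unfold shift seq
    rw [if_pos (by omega)]
    have h2 : (1 : ℕ) ≤ (h + (n : ℤ)).toNat := by omega
    have h3 := hf.1 _ h2
    rcases val3 (f (h + (n : ℤ)).toNat) with e | e | e
    · rw [e]; norm_num
    · exact absurd e h3
    · rw [e]; norm_num
  refine ⟨fun h => (cont_coord h).measurable, hcb, fun h => ?_, fun h g hne => ?_⟩
  · have hnn : 0 ≤ᵐ[μ] fun x : X => 1 - (x h : ℝ) ^ 2 := Eventually.of_forall fun x => by
      show (0 : ℝ) ≤ 1 - (x h : ℝ) ^ 2
      rcases val3 (x h) with e | e | e <;> rw [e] <;> norm_num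
    have hi : Integrable (fun x : X => 1 - (x h : ℝ) ^ 2) μ := by
      refine Pool.Agent.Q25.IT.int_bd ((continuous_const.sub ((cont_coord h).pow 2)).measurable) 1 fun x => ?_
      rcases val3 (x h) with e | e | e <;> rw [e] <;> norm_num
    have h1 := (integral_eq_zero_iff_of_nonneg_ae hnn hi).1 (hsqi h)
    filter_upwards [h1] with x hx
    have h2 : 1 - (x h : ℝ) ^ 2 = 0 := hx
    linarith
  · rcases lt_or_gt_of_ne hne with hlt | hlt
    · have h1 := hpair h (g - h).toNat (by omega)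
      rw [Int.toNat_of_nonneg (by omega)] at h1
      have a1 : h + (g - h) = g := by ring
      rw [a1] at h1
      exact h1
    · have h1 := hpair g (h - g).toNat (by omega)
      rw [Int.toNat_of_nonneg (by omega)] at h1
      have a1 : g + (h - g) = h := by ring
      rw [a1] at h1
      refine Eq.trans ?_ h1
      congr 1
      funext x
      ring

open Classical in
/-- **Theorem.** (1) For all `d` and `δ > 0` there is `K` such that for every aperiodic multiplicative function `f` with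
values `±1`, every Furstenberg system of `f` and EVERY set `D` of at least `K` integers, for all but `δ C(|D|, d)` of the
`d`-element subsets of `D` the coordinates are independent and uniform up to the factor `1 ± δ`.
(2) In every Furstenberg system of every such `f`, for all `δ > 0`, every infinite set of integers has an infinite subset
`D₁` such that for every finite subset of `D₁` the coordinates are independent and uniform up to the factor `1 ± δ`. -/
theorem result :
    (∀ d : ℕ, ∀ δ : ℝ, 0 < δ → ∃ K : ℕ, ∀ f : ℕ → Val, IsMult f → Aperiodic f →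
      ∀ μ : Measure X, IsFurstenbergSystem f μ → ∀ D : Finset ℤ, K ≤ D.card →
        ({D' ∈ D.powersetCard d | ¬ NearlyIndependent μ D' δ}.card : ℝ) ≤ δ * (D.card.choose d : ℝ)) ∧
    ∀ f : ℕ → Val, IsMult f → Aperiodic f → ∀ μ : Measure X, IsFurstenbergSystem f μ → ∀ δ : ℝ, 0 < δ →
      ∀ D₀ : Set ℤ, D₀.Infinite → ∃ D₁ ⊆ D₀, D₁.Infinite ∧ ∀ D' : Finset ℤ, (D' : Set ℤ) ⊆ D₁ →
        NearlyIndependent μ D' δ := by
  refine ⟨fun d δ hδ => ⟨⌈(d : ℝ) + 2 ^ d / (δ * (δ / 2 ^ d) ^ 2)⌉₊, fun f hf ha μ hμ D hD => ?_⟩,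
    fun f hf ha μ hμ δ hδ D₀ hD₀ => ?_⟩
  · have := hμ.1
    exact Pool.Agent.Q25.IT.most d δ hδ D ((Nat.le_ceil _).trans (by exact_mod_cast hD)) (unc f hf ha μ hμ)
  · have := hμ.1
    exact Pool.Agent.Q25.IT.infinite_part (unc f hf ha μ hμ) δ hδ D₀ hD₀

end Pool.Agent.Results.MP_4a7640_nt.IndependentTimes
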