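import Pool.Agent.Q42.AP.Prog

/-!
# Furstenberg systems of aperiodic multiplicative functions with values `1` and `-1`: products along
arithmetic progressions of every length
-/

set_option autoImplicit false

namespace Pool.Agent.Results.MP_4a7640_nt.ProgressionProducts

open MeasureTheory Filter Topology Finset
open Pool.Agent.Q42.AP
open Pool.Agent.TH112.BL (Bd)
open Pool.Agent.TH833.BL (lm avg S)
open Pool.Agent.Y956.CM (usq usq_le lm_usq)
open Pool.Agent.Y958.TC (ind)

/-- the numbers `-1`, `0`, `1` -/
abbrev Val : Type := ({-1, 0, 1} : Set ℝ)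

/-- the space of two-sided sequences -/
abbrev X : Type := ℤ → Val

/-- the `n`-th power of the shift -/
def shift (n : ℤ) (x : X) : X := fun k => x (k + n)

/-- the sequence of the values `f n`, `n ≥ 1`, extended by zero -/
noncomputable def seq (f : ℕ → Val) : X := fun n => if 1 ≤ n then f n.toNat else ⟨0, by simp⟩

/-- `μ` is a Furstenberg system of `f`: a weak-star limit, along some sequence `N j → ∞`, of the
logarithmic averages of the point masses at the shifts of the sequence of values of `f` -/
def IsFurstenbergSystem (f : ℕ → Val) (μ : Measure X) : Prop :=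
  IsProbabilityMeasure μ ∧ ∃ N : ℕ → ℕ, Tendsto N atTop atTop ∧ ∀ φ : X → ℝ, Continuous φ →
    Tendsto (fun j => (1 / Real.log (N j : ℝ)) * ∑ n ∈ Icc 1 (N j), (1 / (n : ℝ)) * φ (shift (n : ℤ) (seq f)))
      atTop (𝓝 (∫ x, φ x ∂μ))

/-- multiplicative functions with values `1` and `-1` -/
def IsMult (f : ℕ → Val) : Prop := (∀ n : ℕ, 1 ≤ n → (f n : ℝ) ≠ 0) ∧
  ∀ m n : ℕ, 1 ≤ m → 1 ≤ n → Nat.Coprime m n → (f (m * n) : ℝ) = f m * f n

/-- the distance to every Dirichlet character is infinite -/
def Aperiodic (f : ℕ → Val) : Prop := ∀ Q : ℕ, 0 < Q → ∀ χ : DirichletCharacter ℂ Q,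
  ¬ Summable (fun p : ℕ => if p.Prime then
    (1 - (((f p : ℝ) : ℂ) * (starRingEnd ℂ) (χ (p : ZMod Q))).re) / (p : ℝ) else 0)

lemma val3 (z : Val) : (z : ℝ) = -1 ∨ (z : ℝ) = 0 ∨ (z : ℝ) = 1 := by
  have h := z.2
  simpa only [Set.mem_insert_iff, Set.mem_singleton_iff] using h

lemma val_le (z : Val) : |(z : ℝ)| ≤ 1 := by
  rcases val3 z with h | h | h <;> rw [h] <;> norm_num

/-- the product of the coordinates along the progression `0, t, ..., (k-1) t` -/
noncomputable def prog (k t : ℕ) (x : X) : ℝ := ∏ j ∈ range k, (x ((j : ℤ) * t) : ℝ)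

lemma prog_le (k t : ℕ) (x : X) : |prog k t x| ≤ 1 := by
  unfold prog
  rw [abs_prod]
  exact prod_le_one (fun _ _ => abs_nonneg _) (fun _ _ => val_le _)

lemma cont_prog (k t : ℕ) : Continuous (prog k t) := by
  unfold prog
  fun_prop

lemma cont_shift (n : ℤ) : Continuous (shift n) := by
  unfold shift
  fun_prop

/-- Let `f` be an aperiodic multiplicative function with values `1` and `-1`, `k, t ≥ 1`. (1) In every
Furstenberg system of `f` the product of the coordinates along the progression `0, t, ..., (k-1) t` has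
integral at most `1/2` in absolute value against every measurable `G` with `|G| ≤ 1` invariant under the
`t`-th power of the shift. (2) For every residue class `r` mod `q` and all large `N` the logarithmic
averages of the products over the classes `r` and `r + t` mod `q` add up, in absolute value, to at most
`1/q + ε`. -/
theorem result (f : ℕ → Val) (hf : IsMult f) (ha : Aperiodic f) (k t : ℕ) (hk : 1 ≤ k) (ht : 1 ≤ t) :
    (∀ μ : Measure X, IsFurstenbergSystem f μ → ∀ G : X → ℝ, Measurable G → (∀ x, |G x| ≤ 1) →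
      (∀ᵐ x ∂μ, G (shift t x) = G x) → |∫ x, prog k t x * G x ∂μ| ≤ 1 / 2) ∧
    ∀ q r : ℕ, r < q → ∀ ε : ℝ, 0 < ε → ∃ N₀ : ℕ, ∀ N : ℕ, N₀ ≤ N →
      |∑ n ∈ (Icc 1 N).filter (fun n => n % q = r), (1 / (n : ℝ)) * ∏ j ∈ range k, (f (n + j * t) : ℝ)| +
      |∑ n ∈ (Icc 1 N).filter (fun n => n % q = (r + t) % q), (1 / (n : ℝ)) *
        ∏ j ∈ range k, (f (n + j * t) : ℝ)| ≤ (1 / q + ε) * Real.log N := by
  classical
  have hsg : Sg (fun n => ⌊(f n : ℝ)⌋) := sg_floor (fun n => val3 (f n)) hf.1 hf.2
  have hfl : ∀ n, ((⌊(f n : ℝ)⌋ : ℤ) : ℝ) = f n := fun n => floor_val (val3 (f n))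
  have hap : Pool.Agent.Y956.CM.AperR (fun n => ((⌊(f n : ℝ)⌋ : ℤ) : ℝ)) := by
    intro Q hQ χ hs
    simp only [hfl] at hs
    exact ha Q hQ χ hs
  have hpr : ∀ n, pr (fun n => ⌊(f n : ℝ)⌋) k t n = ∏ j ∈ range k, (f (n + j * t) : ℝ) := by
    intro n
    unfold pr
    exact prod_congr rfl fun j _ => hfl _
  refine ⟨?_, ?_⟩
  · rintro μ ⟨hprob, N, hN, hlim⟩ G hG hG1 hGt
    -- means and integrals
    have hint : ∀ φ : X → ℝ, Continuous φ → lm (usq N) (fun n => φ (shift (n : ℤ) (seq f))) = ∫ x, φ x ∂μ :=
      fun φ hφ => lm_usq (hlim φ hφ)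
    -- invariance of the measure
    have hss : ∀ n : ℕ, shift (t : ℤ) (shift (n : ℤ) (seq f)) = shift ((n + t : ℕ) : ℤ) (seq f) := by
      intro n
      funext m
      unfold shift
      congr 1
      push_cast
      ring
    have hinv : μ.map (shift t) = μ := by
      letI := TopologicalSpace.pseudoMetrizableSpacePseudoMetric X
      haveI : IsProbabilityMeasure (μ.map (shift t)) :=
        Measure.isProbabilityMeasure_map (cont_shift t).measurable.aemeasurable
      apply ext_of_forall_integral_eq_of_IsFiniteMeasure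
      intro φ
      rw [integral_map (cont_shift t).measurable.aemeasurable φ.continuous.aestronglyMeasurable]
      have h1 := hint (fun x => φ (shift t x)) (φ.continuous.comp (cont_shift t))
      have h2 := hint φ φ.continuous
      rw [← h1, ← h2]
      have hB : Bd (fun n : ℕ => φ (shift (n : ℤ) (seq f))) := ⟨‖φ‖, fun n => φ.norm_coe_le_norm _⟩
      rw [← lm_shift (usq N) (usq_le hN) hB t]
      simp only [hss]
    have hmp : MeasurePreserving (shift t) μ μ := ⟨(cont_shift t).measurable, hinv⟩
    -- the two functions are uncorrelated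
    have hzero : ∫ x, prog k t x * prog k t (shift t x) ∂μ = 0 := by
      rw [← hint (fun x => prog k t x * prog k t (shift t x))
        ((cont_prog k t).mul ((cont_prog k t).comp (cont_shift t)))]
      have h1 := pr_corr hsg hap (usq N) (usq_le hN) (fun _ => True) 1 le_rfl (fun _ => Iff.rfl) k t hk ht
      rw [← h1]
      have hb1 : Bd (fun n : ℕ => prog k t (shift (n : ℤ) (seq f)) * prog k t (shift t (shift (n : ℤ) (seq f)))) :=
        ⟨1, fun n => by
          rw [abs_mul]
          exact mul_le_one₀ (prog_le _ _ _) (abs_nonneg _) (prog_le _ _ _)⟩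
      have hb2 : Bd (fun n : ℕ => ind (fun _ => True) n * (pr (fun n => ⌊(f n : ℝ)⌋) k t n *
          pr (fun n => ⌊(f n : ℝ)⌋) k t (n + t))) := ⟨1, fun n => by
        rw [abs_mul, abs_mul]
        have h1 : |ind (fun _ => True) n| ≤ 1 := by unfold ind; split_ifs <;> norm_num
        exact mul_le_one₀ h1 (by positivity) (mul_le_one₀ (pr_le hsg _ _ _) (abs_nonneg _) (pr_le hsg _ _ _))⟩
      apply (Pool.Agent.Y956.CM.lmLM (usq N) (usq_le hN)).congr_large hb1 hb2 1
      intro n hn
      have hp : ∀ m : ℕ, 1 ≤ m → prog k t (shift (m : ℤ) (seq f)) = pr (fun n => ⌊(f n : ℝ)⌋) k t m := by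
        intro m hm
        rw [hpr]
        unfold prog
        apply prod_congr rfl
        intro j _
        unfold shift seq
        have h6 : (j : ℤ) * t + (m : ℤ) = ((m + j * t : ℕ) : ℤ) := by
          push_cast
          ring
        rw [h6, if_pos (by omega), Int.toNat_natCast]
      rw [hss, hp n hn, hp (n + t) (by omega)]
      unfold ind
      rw [if_pos trivial, one_mul]
    -- the integral against `G`
    have hPm : Measurable (prog k t) := (cont_prog k t).measurable
    have hi1 : Integrable (fun x => prog k t x * G x) μ := by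
      refine ⟨(hPm.mul hG).aestronglyMeasurable, HasFiniteIntegral.of_bounded (C := 1) (Eventually.of_forall fun x => ?_)⟩
      rw [Real.norm_eq_abs, abs_mul]
      exact mul_le_one₀ (prog_le _ _ _) (abs_nonneg _) (hG1 x)
    have hi2 : Integrable (fun x => prog k t (shift t x) * G x) μ := by
      refine ⟨((hPm.comp (cont_shift t).measurable).mul hG).aestronglyMeasurable,
        HasFiniteIntegral.of_bounded (C := 1) (Eventually.of_forall fun x => ?_)⟩
      rw [Real.norm_eq_abs, abs_mul]
      exact mul_le_one₀ (prog_le _ _ _) (abs_nonneg _) (hG1 x)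
    have hi3 : Integrable (fun x => prog k t x * prog k t (shift t x)) μ := by
      refine ⟨(hPm.mul (hPm.comp (cont_shift t).measurable)).aestronglyMeasurable,
        HasFiniteIntegral.of_bounded (C := 1) (Eventually.of_forall fun x => ?_)⟩
      rw [Real.norm_eq_abs, abs_mul]
      exact mul_le_one₀ (prog_le _ _ _) (abs_nonneg _) (prog_le _ _ _)
    have h3 : ∫ x, prog k t x * G x ∂μ = ∫ x, prog k t (shift t x) * G x ∂μ := by
      have h4 : ∫ x, prog k t x * G x ∂μ = ∫ x, prog k t (shift t x) * G (shift t x) ∂μ := by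
        conv_lhs => rw [← hinv]
        exact integral_map (cont_shift t).measurable.aemeasurable (f := fun x => prog k t x * G x)
          (hPm.mul hG).aestronglyMeasurable
      rw [h4]
      apply integral_congr_ae
      filter_upwards [hGt] with x hx
      rw [hx]
    have h5 : ∀ s : ℝ, (s = 1 ∨ s = -1) → s * (2 * ∫ x, prog k t x * G x ∂μ) ≤ 1 := by
      intro s hs
      have h6 : s * (2 * ∫ x, prog k t x * G x ∂μ) =
          ∫ x, s * (prog k t x * G x + prog k t (shift t x) * G x) ∂μ := by
        rw [integral_const_mul, integral_add hi1 hi2, ← h3]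
        ring
      have h7 : ∫ x, (1 + prog k t x * prog k t (shift t x)) ∂μ = 1 := by
        rw [integral_add (integrable_const 1) hi3, hzero, integral_const, add_zero]
        simp
      rw [h6]
      conv_rhs => rw [← h7]
      apply integral_mono ((hi1.add hi2).const_mul s) ((integrable_const 1).add hi3)
      intro x
      have a1 := abs_le.1 (prog_le k t x)
      have a2 := abs_le.1 (prog_le k t (shift t x))
      have a3 := abs_le.1 (hG1 x)
      show s * (prog k t x * G x + prog k t (shift t x) * G x) ≤ 1 + prog k t x * prog k t (shift t x)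
      set u := prog k t x
      set v := prog k t (shift t x)
      have b1 : u + v ≤ 1 + u * v := by nlinarith
      have b2 : -(u + v) ≤ 1 + u * v := by nlinarith
      have b3 : |s * (u * G x + v * G x)| ≤ |u + v| := by
        rw [← add_mul, abs_mul, abs_mul]
        have hs1 : |s| = 1 := by rcases hs with rfl | rfl <;> norm_num
        rw [hs1, one_mul]
        exact mul_le_of_le_one_right (abs_nonneg _) (hG1 x)
      have b4 : |u + v| ≤ 1 + u * v := abs_le.2 ⟨by linarith, b1⟩
      exact (le_abs_self _).trans (b3.trans b4)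
    have h8 := h5 1 (Or.inl rfl)
    have h9 := h5 (-1) (Or.inr rfl)
    rw [abs_le]
    constructor <;> linarith
  · intro q r hr ε hε
    have hq : 1 ≤ q := by omega
    have hq0 : (0 : ℝ) < q := by exact_mod_cast hq
    set F : ℕ → ℝ := fun n => ∏ j ∈ range k, (f (n + j * t) : ℝ) with hF
    have hF1 : ∀ n, |F n| ≤ 1 := fun n => by
      simp only [hF]
      rw [abs_prod]
      exact prod_le_one (fun _ _ => abs_nonneg _) (fun _ _ => val_le _)
    set P : ℕ → ℝ := fun n => ind (fun n => n % q = r) n * F n with hP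
    set P' : ℕ → ℝ := fun n => ind (fun n => n % q = (r + t) % q) n * F n with hP'
    have hb : ∀ s, Bd (fun n => ind (fun n => n % q = s) n * F n) := fun s => ⟨1, fun n => by
      rw [abs_mul]
      have h1 : |ind (fun n => n % q = s) n| ≤ 1 := by unfold ind; split_ifs <;> norm_num
      exact mul_le_one₀ h1 (abs_nonneg _) (hF1 n)⟩
    have hbP : Bd P := hb r
    have hbP' : Bd P' := hb _
    have hcl : ∀ U : Ultrafilter ℕ, (U : Filter ℕ) ≤ atTop → |lm U P| + |lm U P'| ≤ 1 / q := by
      intro U hU
      have h1 := pr_class hsg hap U hU q r k t hq hr hk ht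
      simp only [hpr] at h1
      exact h1
    have hadd : ∀ U : Ultrafilter ℕ, (U : Filter ℕ) ≤ atTop → ∀ s : ℝ, lm U (fun n => P n + s * P' n) =
        lm U P + s * lm U P' := by
      intro U hU s
      have h1 := (Pool.Agent.Y956.CM.lmLM U hU).add P (fun n => s * P' n) hbP (hbP'.cmul s)
      have h2 := (Pool.Agent.Y956.CM.lmLM U hU).smul s P' hbP'
      rw [h2] at h1
      exact h1
    have hev : ∀ s : ℝ, (s = 1 ∨ s = -1) → ∃ N₀ : ℕ, ∀ N : ℕ, N₀ ≤ N → |avg (fun n => P n + s * P' n) N| ≤ 1 / q + ε := by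
      intro s hs
      apply ev_of_lm (hbP.add (hbP'.cmul s)) (1 / q) _ ε hε
      intro U hU
      rw [hadd U hU s]
      refine (abs_add_le _ _).trans ?_
      rw [abs_mul]
      have hs1 : |s| = 1 := by rcases hs with rfl | rfl <;> norm_num
      rw [hs1, one_mul]
      exact hcl U hU
    obtain ⟨N₁, hN₁⟩ := hev 1 (Or.inl rfl)
    obtain ⟨N₂, hN₂⟩ := hev (-1) (Or.inr rfl)
    refine ⟨max (max N₁ N₂) 3, fun N hN => ?_⟩
    have hl := Pool.Agent.TH833.BL.one_le_log ((le_max_right _ _).trans hN)
    have hl0 : 0 < Real.log (N : ℝ) := by linarith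
    have e1 : ∀ s, Pool.Agent.TH833.BL.S (fun n => ind (fun n => n % q = s) n * F n) N =
        ∑ n ∈ (Icc 1 N).filter (fun n => n % q = s), (1 / (n : ℝ)) * ∏ j ∈ range k, (f (n + j * t) : ℝ) := by
      intro s
      unfold Pool.Agent.TH833.BL.S
      rw [sum_filter]
      apply sum_congr rfl
      intro n _
      by_cases hn : n % q = s
      · simp [ind, hn, hF]
      · simp [ind, hn]
    rw [← e1 r, ← e1 ((r + t) % q)]
    set a := Pool.Agent.TH833.BL.S (fun n => ind (fun n => n % q = r) n * F n) N with had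
    set b := Pool.Agent.TH833.BL.S (fun n => ind (fun n => n % q = (r + t) % q) n * F n) N with hbd
    have h1 : ∀ s : ℝ, avg (fun n => P n + s * P' n) N = (1 / Real.log N) * (a + s * b) := by
      intro s
      unfold avg
      rw [Pool.Agent.TH833.BL.S_add, Pool.Agent.TH833.BL.S_smul]
    have h2 := hN₁ N ((le_max_left _ _).trans ((le_max_left _ _).trans hN))
    have h3 := hN₂ N ((le_max_right _ _).trans ((le_max_left _ _).trans hN))
    rw [h1, abs_mul, abs_of_nonneg (by positivity), div_mul_eq_mul_div, one_mul, div_le_iff₀ hl0] at h2 h3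
    rw [one_mul] at h2
    have h4 := abs_le.1 h2
    have h5 := abs_le.1 h3
    rcases abs_cases a with ⟨h6, _⟩ | ⟨h6, _⟩ <;> rcases abs_cases b with ⟨h7, _⟩ | ⟨h7, _⟩ <;> rw [h6, h7] <;>
      linarith

end Pool.Agent.Results.MP_4a7640_nt.ProgressionProducts
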