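import Pool.Agent.Q42.AP.Furst

/-!
# Furstenberg systems of aperiodic multiplicative functions with values `1` and `-1`: correlations of
order `k` are at most `1 - c k`, with `c k` independent of the function, the system and the shifts
-/

set_option autoImplicit false

namespace Pool.Agent.Results.MP_4a7640_nt.UniformBoundEveryOrder

open MeasureTheory Filter Topology Finset
open Pool.Agent.Q42.AP
open Pool.Agent.TH112.BL (Bd)
open Pool.Agent.TH833.BL (lm avg S)
open Pool.Agent.Y956.CM (usq usq_le lm_usq)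
open Pool.Agent.Y958.U (dv)
open Pool.Agent.Y958.TC (ind)

/-- the numbers `-1`, `0`, `1` -/
abbrev Val : Type := ({-1, 0, 1} : Set ℝ)

/-- the space of two-sided sequences -/
abbrev X : Type := ℤ → Val

/-- the `n`-th power of the shift -/
def shift (n : ℤ) (x : X) : X := fun k => x (k + n)

/-- the sequence of the values `f n`, `n ≥ 1`, extended by zero -/
noncomputable def seq (f : ℕ → Val) : X := fun n => if 1 ≤ n then f n.toNat else ⟨0, by simp⟩

/-- `μ` is a Furstenberg system of `f`: a weak-star limit, along some sequence `N j → ∞`, of the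
logarithmic averages of the point masses at the shifts of the sequence of values of `f` -/
def IsFurstenbergSystem (f : ℕ → Val) (μ : Measure X) : Prop :=
  IsProbabilityMeasure μ ∧ ∃ N : ℕ → ℕ, Tendsto N atTop atTop ∧ ∀ φ : X → ℝ, Continuous φ →
    Tendsto (fun j => (1 / Real.log (N j : ℝ)) * ∑ n ∈ Icc 1 (N j), (1 / (n : ℝ)) * φ (shift (n : ℤ) (seq f)))
      atTop (𝓝 (∫ x, φ x ∂μ))

/-- multiplicative functions with values `1` and `-1` -/
def IsMult (f : ℕ → Val) : Prop := (∀ n : ℕ, 1 ≤ n → (f n : ℝ) ≠ 0) ∧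
  ∀ m n : ℕ, 1 ≤ m → 1 ≤ n → Nat.Coprime m n → (f (m * n) : ℝ) = f m * f n

/-- the distance to every Dirichlet character is infinite -/
def Aperiodic (f : ℕ → Val) : Prop := ∀ Q : ℕ, 0 < Q → ∀ χ : DirichletCharacter ℂ Q,
  ¬ Summable (fun p : ℕ => if p.Prime then
    (1 - (((f p : ℝ) : ℂ) * (starRingEnd ℂ) (χ (p : ZMod Q))).re) / (p : ℝ) else 0)

lemma val3 (z : Val) : (z : ℝ) = -1 ∨ (z : ℝ) = 0 ∨ (z : ℝ) = 1 := by
  have h := z.2
  simpa only [Set.mem_insert_iff, Set.mem_singleton_iff] using h

lemma val_le (z : Val) : |(z : ℝ)| ≤ 1 := by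
  rcases val3 z with h | h | h <;> rw [h] <;> norm_num

lemma prod_le {k : ℕ} (y : Fin k → Val) : |∏ i, (y i : ℝ)| ≤ 1 := by
  rw [abs_prod]
  exact prod_le_one (fun _ _ => abs_nonneg _) (fun _ _ => val_le _)

/-- For every `k ≥ 1` (here `k + 1` factors) there is `c > 0` such that for every aperiodic multiplicative
`f` with values `1` and `-1`: (1) in every Furstenberg system of `f` all correlations with `k` distinct
integer shifts are at most `1 - c` in absolute value; (2) the same holds, for all large `N`, for the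
logarithmic averages over every residue class. -/
theorem result (k : ℕ) : ∃ c : ℝ, 0 < c ∧ ∀ f : ℕ → Val, IsMult f → Aperiodic f →
    (∀ μ : Measure X, IsFurstenbergSystem f μ → ∀ h : Fin (k + 1) → ℤ, Function.Injective h →
      |∫ x, ∏ i, (x (h i) : ℝ) ∂μ| ≤ 1 - c) ∧
    ∀ q r : ℕ, r < q → ∀ h : Fin (k + 1) → ℕ, Function.Injective h → ∀ ε : ℝ, 0 < ε →
      ∃ N₀ : ℕ, ∀ N : ℕ, N₀ ≤ N →
        |∑ n ∈ (Icc 1 N).filter (fun n => n % q = r), (1 / (n : ℝ)) * ∏ i, (f (n + h i) : ℝ)| ≤
          (1 - c + ε) / q * Real.log N := by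
  classical
  obtain ⟨c, hc0, hc1, hc⟩ := unif_lm k
  refine ⟨c, hc0, fun f hf ha => ?_⟩
  have hsg : Sg (fun n => ⌊(f n : ℝ)⌋) := sg_floor (fun n => val3 (f n)) hf.1 hf.2
  have hfl : ∀ n, ((⌊(f n : ℝ)⌋ : ℤ) : ℝ) = f n := fun n => floor_val (val3 (f n))
  have hap : Pool.Agent.Y956.CM.AperR (fun n => ((⌊(f n : ℝ)⌋ : ℤ) : ℝ)) := by
    intro Q hQ χ hs
    simp only [hfl] at hs
    exact ha Q hQ χ hs
  have hmain := hc _ hsg hap
  simp only [hfl] at hmain
  refine ⟨?_, ?_⟩
  · rintro μ ⟨hprob, N, hN, hlim⟩ h hh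
    set φ : X → ℝ := fun x => ∏ i, (x (h i) : ℝ) with hφ
    have hφc : Continuous φ := by rw [hφ]; fun_prop
    have hφ1 : ∀ x, |φ x| ≤ 1 := fun x => prod_le _
    have e1 : lm (usq N) (fun n => φ (shift (n : ℤ) (seq f))) = ∫ x, φ x ∂μ := lm_usq (hlim φ hφc)
    set M : ℕ := 1 + ∑ i, (h i).natAbs with hM
    have hMi : ∀ i, 1 ≤ (M : ℤ) + h i := by
      intro i
      have h1 : (h i).natAbs ≤ ∑ i, (h i).natAbs :=
        single_le_sum (f := fun i => (h i).natAbs) (fun _ _ => Nat.zero_le _) (mem_univ i)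
      omega
    set x : Fin (k + 1) → ℕ := fun i => ((M : ℤ) + h i).toNat with hx
    have hxi : ∀ i, ((x i : ℕ) : ℤ) = M + h i := by
      intro i
      have := hMi i
      simp only [hx]
      omega
    have hxinj : Function.Injective x := by
      intro a b hab
      apply hh
      have h1 := hxi a
      have h2 := hxi b
      rw [hab] at h1
      omega
    have hB : Bd (fun n : ℕ => φ (shift (n : ℤ) (seq f))) := ⟨1, fun n => hφ1 _⟩
    have e2 := lm_shift (usq N) (usq_le hN) hB M
    have h3 := hmain (usq N) (usq_le hN) (fun _ => True) 1 le_rfl (fun _ => Iff.rfl) x hxinj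
    have e4 : (fun n : ℕ => ind (fun _ => True) n * ∏ i, (f (n + x i) : ℝ)) =
        fun n : ℕ => φ (shift ((n + M : ℕ) : ℤ) (seq f)) := by
      funext n
      unfold ind
      rw [if_pos trivial, one_mul, hφ]
      apply prod_congr rfl
      intro i _
      unfold shift seq
      have h5 := hxi i
      have h6 : (h i) + ((n + M : ℕ) : ℤ) = ((n + x i : ℕ) : ℤ) := by
        push_cast
        linarith
      have h7 := hMi i
      rw [h6, if_pos (by omega), Int.toNat_natCast]
    rw [e4, e2, e1] at h3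
    have h8 : dv (fun _ => True) 1 = 1 := by
      unfold dv
      simp
    rw [h8, mul_one] at h3
    exact h3
  · intro q r hr h hh ε hε
    have hq : 1 ≤ q := by omega
    have hq0 : (0 : ℝ) < q := by exact_mod_cast hq
    have hV : ∀ n, (n + q) % q = r ↔ n % q = r := fun n => by rw [Nat.add_mod_right]
    have hb : Bd (fun n => ind (fun n => n % q = r) n * ∏ i, (f (n + h i) : ℝ)) := ⟨1, fun n => by
      rw [abs_mul]
      have h1 : |ind (fun n => n % q = r) n| ≤ 1 := by unfold ind; split_ifs <;> norm_num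
      exact mul_le_one₀ h1 (abs_nonneg _) (prod_le _)⟩
    have hdv : dv (fun n => n % q = r) q = 1 / q := by
      unfold dv
      have : ∀ inst : DecidablePred (fun n => n % q = r), @Finset.filter ℕ (fun n => n % q = r) inst (range q) =
          {r} := by
        intro inst
        ext n
        rw [mem_filter, mem_range, mem_singleton]
        constructor
        · rintro ⟨h1, h2⟩
          rwa [Nat.mod_eq_of_lt h1] at h2
        · rintro rfl
          exact ⟨hr, Nat.mod_eq_of_lt hr⟩
      rw [this, card_singleton]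
      simp
    obtain ⟨N₀, hN₀⟩ := ev_of_lm hb ((1 - c) * (1 / q)) (fun U hU => by
      have h1 := hmain U hU (fun n => n % q = r) q hq hV h hh
      rw [hdv] at h1
      exact h1) (ε / q) (by positivity)
    refine ⟨max N₀ 3, fun N hN => ?_⟩
    have h1 := hN₀ N ((le_max_left _ _).trans hN)
    have hl := Pool.Agent.TH833.BL.one_le_log ((le_max_right _ _).trans hN)
    have hl0 : 0 < Real.log (N : ℝ) := by linarith
    unfold avg at h1
    rw [abs_mul, abs_of_nonneg (by positivity), div_mul_eq_mul_div, one_mul, div_le_iff₀ hl0] at h1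
    have e1 : S (fun n => ind (fun n => n % q = r) n * ∏ i, (f (n + h i) : ℝ)) N =
        ∑ n ∈ (Icc 1 N).filter (fun n => n % q = r), (1 / (n : ℝ)) * ∏ i, (f (n + h i) : ℝ) := by
      unfold S
      rw [sum_filter]
      apply sum_congr rfl
      intro n _
      by_cases hn : n % q = r
      · simp [ind, hn]
      · simp [ind, hn]
    rw [e1] at h1
    refine h1.trans (le_of_eq ?_)
    field_simp

end Pool.Agent.Results.MP_4a7640_nt.UniformBoundEveryOrder
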